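import Pool.Agent.W46.HM.Stm

/-!
# The oracle at one label and one colour
-/

set_option autoImplicit false

open Finset
open scoped Classical

namespace Pool.Agent.W305.HM
open Pool.Agent.W904.AK Pool.Agent.W46.HD Pool.Agent.W46.HM

section transfer

variable {Ω Ω' : Type} [Fintype Ω] [Fintype Ω'] {d n L a : ℕ} {A D : Ω → Fin d → ℝ}
  {ι : Ω' → Ω} {φ : Ω × Fin n → Ω' × Fin L} {q : Ω × Fin n → ℝ}

lemma im_supp {α : Type*} (φ : Ω × Fin n → α) (q : Ω × Fin n → ℝ) (y : α)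
    (h : im q φ y ≠ 0) : ∃ z, q z ≠ 0 ∧ φ z = y := by
  by_contra hc
  push Not at hc
  apply h
  rw [im_eq_sum]
  apply Finset.sum_eq_zero
  intro z _
  by_cases hz : q z = 0
  · simp [hz]
  · rw [if_neg (hc z hz)]

omit [Fintype Ω] [Fintype Ω'] in
lemma fst_eq (hι : Function.Injective ι)
    (hφ : ∀ z, q z ≠ 0 → ι (φ z).1 = z.1 ∧ (z.2 : ℕ) = a * L + (φ z).2)
    {z z' : Ω × Fin n} (hz : q z ≠ 0) (hz' : q z' ≠ 0) : (φ z).1 = (φ z').1 ↔ z.1 = z'.1 := by
  rw [← (hφ z hz).1, ← (hφ z' hz').1]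
  exact ⟨fun h => by rw [h], fun h => hι h⟩

omit [Fintype Ω] [Fintype Ω'] in
lemma snd_eq
    (hφ : ∀ z, q z ≠ 0 → ι (φ z).1 = z.1 ∧ (z.2 : ℕ) = a * L + (φ z).2)
    {z z' : Ω × Fin n} (hz : q z ≠ 0) (hz' : q z' ≠ 0) : (φ z).2 = (φ z').2 ↔ z.2 = z'.2 := by
  have h1 := (hφ z hz).2
  have h2 := (hφ z' hz').2
  rw [Fin.ext_iff, Fin.ext_iff]
  omega

omit [Fintype Ω] [Fintype Ω'] in
lemma cell_eq
    (hφ : ∀ z, q z ≠ 0 → ι (φ z).1 = z.1 ∧ (z.2 : ℕ) = a * L + (φ z).2)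
    {z : Ω × Fin n} (hz : q z ≠ 0) :
    cell (fun w i => A (ι w) i + ((a * L : ℕ) : ℝ) * D (ι w) i) (fun w => D (ι w)) (φ z).2 (φ z).1
      = cell A D z.2 z.1 := by
  obtain ⟨h1, h2⟩ := hφ z hz
  unfold cell
  funext i
  simp only
  rw [h1, h2]
  congr 1
  push_cast
  ring

lemma inner (hι : Function.Injective ι)
    (hφ : ∀ z, q z ≠ 0 → ι (φ z).1 = z.1 ∧ (z.2 : ℕ) = a * L + (φ z).2)
    {z : Ω × Fin n} (hz : q z ≠ 0) (F : Fin L → ℝ) (G : Fin n → ℝ)
    (hFG : ∀ s, q (z.1, s) ≠ 0 → F (φ (z.1, s)).2 = G s) :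
    ∑ z1, im q φ z1 * (if z1.1 = (φ z).1 then F z1.2 else 0) = ∑ s, q (z.1, s) * G s := by
  rw [sum_im_mul q φ (fun z1 => if z1.1 = (φ z).1 then F z1.2 else 0), Fintype.sum_prod_type,
    Finset.sum_eq_single_of_mem z.1 (Finset.mem_univ _)]
  · refine Finset.sum_congr rfl fun s _ => ?_
    by_cases hs : q (z.1, s) = 0
    · rw [hs, zero_mul, zero_mul]
    · rw [if_pos ((fst_eq hι hφ hs hz).2 rfl), hFG s hs]
  · intro ω _ hω
    refine Finset.sum_eq_zero fun s _ => ?_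
    by_cases hs : q (ω, s) = 0
    · rw [hs, zero_mul]
    · rw [if_neg, mul_zero]
      intro h
      exact hω ((fst_eq hι hφ hs hz).1 h)

lemma sep_le (hq : IsLaw q) (hι : Function.Injective ι)
    (hφ : ∀ z, q z ≠ 0 → ι (φ z).1 = z.1 ∧ (z.2 : ℕ) = a * L + (φ z).2) (B : ℝ)
    (hB : ∀ (ω : Ω) (x : Fin n), ∑ z, q (ω, z) * max 0 (psi L z x) ≤ B * ∑ z, q (ω, z)) :
    sep (im q φ) ≤ B := by
  have hq' : IsLaw (im q φ) := hq.im φ
  unfold sep
  rw [Fintype.sum_prod_type, Finset.sum_comm]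
  calc ∑ z2, ∑ z1, glue (im q φ) (im q φ) Prod.fst Prod.fst (z1, z2) * psi L z1.2 z2.2
      ≤ ∑ z2, im q φ z2 * B := by
        refine Finset.sum_le_sum fun z2 _ => ?_
        by_cases h2 : im q φ z2 = 0
        · rw [h2, zero_mul]
          apply le_of_eq
          refine Finset.sum_eq_zero fun z1 _ => ?_
          unfold glue
          simp [h2]
        · obtain ⟨z, hz, rfl⟩ := im_supp φ q z2 h2
          have hM : im (im q φ) Prod.fst (φ z).1 = ∑ s, q (z.1, s) := by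
            have := inner hι hφ hz (fun _ => 1) (fun _ => 1) (fun _ _ => rfl)
            simp only [mul_one, mul_ite, mul_zero] at this
            rw [← this, im_eq_sum]
          have hMpos : 0 < im (im q φ) Prod.fst (φ z).1 := im_pos hq' Prod.fst h2
          have e1 : ∀ z1, glue (im q φ) (im q φ) Prod.fst Prod.fst (z1, φ z) *
              psi L z1.2 (φ z).2 ≤ im q φ (φ z) / im (im q φ) Prod.fst (φ z).1 *
                (im q φ z1 * (if z1.1 = (φ z).1 then max 0 (psi L z1.2 (φ z).2) else 0)) := by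
            intro z1
            unfold glue
            by_cases h : z1.1 = (φ z).1
            · simp only [h, if_true]
              have h3 : im q φ z1 * im q φ (φ z) / im (im q φ) Prod.fst (φ z).1 *
                  psi L z1.2 (φ z).2 ≤ im q φ z1 * im q φ (φ z) /
                    im (im q φ) Prod.fst (φ z).1 * max 0 (psi L z1.2 (φ z).2) := by
                refine mul_le_mul_of_nonneg_left (le_max_right _ _) ?_
                exact div_nonneg (mul_nonneg (hq'.nonneg _) (hq'.nonneg _)) hMpos.le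
              refine h3.trans (le_of_eq ?_)
              ring
            · simp [h]
          refine (Finset.sum_le_sum fun z1 _ => e1 z1).trans ?_
          rw [← Finset.mul_sum]
          have e2 := inner hι hφ hz (fun x => max 0 (psi L x (φ z).2))
            (fun s => max 0 (psi L s z.2)) (fun s hs => by
              have h3 := (hφ _ hs).2
              have h4 := (hφ _ hz).2
              congr 1
              unfold psi
              rw [h3, h4]
              push_cast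
              congr 3
              ring_nf)
          rw [e2]
          have h5 := hB z.1 z.2
          rw [← hM] at h5
          rw [div_mul_eq_mul_div, div_le_iff₀ hMpos, mul_assoc]
          exact mul_le_mul_of_nonneg_left h5 (hq'.nonneg _)
    _ = B := by
        rw [← Finset.sum_mul, hq'.total, one_mul]

theorem transfer (hq : IsLaw q) (hι : Function.Injective ι)
    (hφ : ∀ z, q z ≠ 0 → ι (φ z).1 = z.1 ∧ (z.2 : ℕ) = a * L + (φ z).2) (b G C B : ℝ)
    (hC : 0 ≤ C)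
    (hB : ∀ (ω : Ω) (x : Fin n), ∑ z, q (ω, z) * max 0 (psi L z x) ≤ B * ∑ z, q (ω, z))
    (O : OrT L (fun w i => A (ι w) i + ((a * L : ℕ) : ℝ) * D (ι w) i) (fun w => D (ι w)) b G C) :
    H q Prod.fst ≤ b * (H q (fun z => (z.2, cell A D z.2 z.1)) - H q Prod.snd) +
      G * (Real.log L - (H q id - H q Prod.fst)) + C * (1 + B) := by
  have h := O (im q φ) (hq.im φ)
  have hs := sep_le hq hι hφ B hB
  have e1 : H (im q φ) Prod.fst = H q Prod.fst := by
    rw [H_im]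
    exact H_congr hq (fun z z' hz hz' h => (fst_eq hι hφ hz hz').1 h)
      (fun z z' hz hz' h => (fst_eq hι hφ hz hz').2 h)
  have e2 : H (im q φ) Prod.snd = H q Prod.snd := by
    rw [H_im]
    exact H_congr hq (fun z z' hz hz' h => (snd_eq hφ hz hz').1 h)
      (fun z z' hz hz' h => (snd_eq hφ hz hz').2 h)
  have e3 : H (im q φ) id = H q id := by
    rw [H_im]
    refine H_congr hq (fun z z' hz hz' h => ?_) (fun z z' hz hz' h => ?_)
    · simp only [id] at h ⊢
      exact Prod.ext ((fst_eq hι hφ hz hz').1 (congrArg Prod.fst h))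
        ((snd_eq hφ hz hz').1 (congrArg Prod.snd h))
    · simp only [id] at h ⊢
      rw [h]
  have e4 : H (im q φ) (fun z => (z.2, cell (fun w i => A (ι w) i + ((a * L : ℕ) : ℝ) * D (ι w) i)
      (fun w => D (ι w)) z.2 z.1)) = H q (fun z => (z.2, cell A D z.2 z.1)) := by
    rw [H_im]
    refine H_congr hq (fun z z' hz hz' h => ?_) (fun z z' hz hz' h => ?_)
    · rw [cell_eq hφ hz, cell_eq hφ hz'] at h
      have h1 := Prod.ext_iff.1 h
      exact Prod.ext ((snd_eq hφ hz hz').1 h1.1) h1.2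
    · rw [cell_eq hφ hz, cell_eq hφ hz']
      have h1 := Prod.ext_iff.1 h
      exact Prod.ext ((snd_eq hφ hz hz').2 h1.1) h1.2
  unfold aa hh lam at h
  rw [e1, e2, e3, e4] at h
  refine h.trans ?_
  have h2 : C * (1 + sep (im q φ)) ≤ C * (1 + B) := mul_le_mul_of_nonneg_left (by linarith) hC
  linarith

end transfer

lemma floor_close (n L : ℕ) (hL : 0 < L) (x y : ℝ) (h : ⌊(L : ℝ) * x⌋ = ⌊(L : ℝ) * y⌋)
    (hc : ⌊(n : ℝ) * x⌋ % (((n / L : ℕ) : ℤ) + 3) = ⌊(n : ℝ) * y⌋ % (((n / L : ℕ) : ℤ) + 3)) :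
    ⌊(n : ℝ) * x⌋ = ⌊(n : ℝ) * y⌋ := by
  have h1 : |(L : ℝ) * x - L * y| < 1 := Int.abs_sub_lt_one_of_floor_eq_floor h
  have hLr : (0 : ℝ) < L := by exact_mod_cast hL
  have h2 : |(n : ℝ) * x - n * y| ≤ (n : ℝ) / L := by
    rw [← mul_sub, abs_mul, abs_of_nonneg (Nat.cast_nonneg n)]
    rw [← mul_sub, abs_mul, abs_of_pos hLr] at h1
    rw [le_div_iff₀ hLr, mul_assoc, mul_comm |x - y|]
    have := mul_le_mul_of_nonneg_left h1.le (Nat.cast_nonneg (α := ℝ) n)
    linarith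
  have h3 : (n : ℝ) / L < ((n / L : ℕ) : ℝ) + 1 := by
    rw [div_lt_iff₀ hLr]
    have := Nat.lt_mul_div_succ n hL
    have h4 : (n : ℝ) < ((L * (n / L + 1) : ℕ) : ℝ) := by exact_mod_cast this
    push_cast at h4
    linarith
  obtain ⟨m, hm⟩ : ∃ m : ℕ, m = n / L := ⟨_, rfl⟩
  rw [← hm] at hc h3
  rw [abs_le] at h2
  have a1 := Int.floor_le ((n : ℝ) * x)
  have a2 := Int.lt_floor_add_one ((n : ℝ) * x)
  have a3 := Int.floor_le ((n : ℝ) * y)
  have a4 := Int.lt_floor_add_one ((n : ℝ) * y)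
  have h5 : |⌊(n : ℝ) * x⌋ - ⌊(n : ℝ) * y⌋| < (m : ℤ) + 3 := by
    rw [abs_lt]
    constructor
    · have : (((-((m : ℤ) + 3)) : ℤ) : ℝ) < ((⌊(n : ℝ) * x⌋ - ⌊(n : ℝ) * y⌋ : ℤ) : ℝ) := by
        push_cast
        linarith
      exact_mod_cast this
    · have : ((⌊(n : ℝ) * x⌋ - ⌊(n : ℝ) * y⌋ : ℤ) : ℝ) < ((((m : ℤ) + 3) : ℤ) : ℝ) := by
        push_cast
        linarith
      exact_mod_cast this
  have h6 : ((m : ℤ) + 3) ∣ ⌊(n : ℝ) * x⌋ - ⌊(n : ℝ) * y⌋ := Int.ModEq.dvd hc.symm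
  have h7 := Int.eq_zero_of_abs_lt_dvd h6 h5
  omega

theorem LOC1 : S_LOC1 := by
  intro d b G C hC O n Ω _ A D hF j a ρ q hq B hB hsup hps
  have hLpos : 0 < 2 ^ j := by positivity
  obtain ⟨z0, hz0⟩ : ∃ z, q z ≠ 0 := by
    by_contra h
    push Not at h
    have := hq.total
    simp [h] at this
  let φ : Ω × Fin n → {ω : Ω // col n D j ω = ρ} × Fin (2 ^ j) := fun z =>
    (if h : col n D j z.1 = ρ then ⟨z.1, h⟩ else ⟨z0.1, (hsup z0 hz0).2⟩,
      ⟨z.2 % 2 ^ j, Nat.mod_lt _ hLpos⟩)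
  have hφ : ∀ z, q z ≠ 0 → ((φ z).1 : Ω) = z.1 ∧ (z.2 : ℕ) = a * 2 ^ j + (φ z).2 := by
    intro z hz
    obtain ⟨h1, h2⟩ := hsup z hz
    constructor
    · simp only [φ]
      rw [dif_pos h2]
    · simp only [φ]
      rw [← h1]
      exact (Nat.div_add_mod' _ _).symm
  have hfam : IsFam (2 ^ j) (fun w : {ω : Ω // col n D j ω = ρ} => D w.1) := by
    refine ⟨hLpos, fun w i => hF.lo w.1 i, fun w i => hF.hi w.1 i, fun w w' h => ?_⟩
    apply Subtype.ext
    apply hF.inj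
    intro i
    apply floor_close n (2 ^ j) hLpos _ _ (h i)
    have h1 := congrFun (w.2.trans w'.2.symm) i
    exact h1
  have hO := O (2 ^ j) {ω : Ω // col n D j ω = ρ}
    (fun w i => A w.1 i + ((a * 2 ^ j : ℕ) : ℝ) * D w.1 i) (fun w => D w.1) hfam
  have := transfer (A := A) (D := D) hq Subtype.val_injective hφ b G C B hC hps hO
  rw [Nat.cast_pow, Nat.cast_ofNat] at this
  exact this

end Pool.Agent.W305.HM
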